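import Pool.Agent.U398.MV.Fin5

set_option autoImplicit false

/-!
# The k-level correlations of the zeta zeros in large boxes, unconditionally

For every `k = m + 1 ≥ 2` there are `C, T₀` such that for all `T ≥ T₀`, all `1 ≤ A ≤ log T / 10` and ALL boxes
`B ⊆ [-A, A]^(k-1)` the number `N_k(T; B)` of the problem equals
`(∫_B det A(u, 0) du + O(A^(k-2))) (T/2π) log T`; the error has the order of the second term of the conjecture.

Project MV5: helper398 (lead), helper364, helper608, helper741, helper803, on top of the projects MV, MV2, MV3, MV4.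
-/

namespace Pool.Agent.Results.MP_67227b_nt.KLevelLargeBoxes

open MeasureTheory Set

noncomputable section

/-- the number of nontrivial zeros of `ζ` with ordinate in `(0, t]`, with multiplicity -/
def NZ (t : ℝ) : ℕ :=
  ∑ᶠ s ∈ {s : ℂ | riemannZeta s = 0 ∧ 0 < s.re ∧ s.re < 1 ∧ 0 < s.im ∧ s.im ≤ t}, analyticOrderNatAt riemannZeta s

/-- for `n ≥ 1`: the `n`-th positive ordinate of a nontrivial zero, in nondecreasing order, with multiplicity -/
def γ (n : ℕ) : ℝ := sInf {t : ℝ | n ≤ NZ t}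

/-- `N_{m+1}(T; B)` for the box `B = ∏ [α_i, β_i]` -/
def Nk {m : ℕ} (T : ℝ) (α β : Fin m → ℝ) : ℕ :=
  Set.ncard {j : Fin (m + 1) → ℕ | Function.Injective j ∧ (∀ i, 1 ≤ j i ∧ γ (j i) ≤ T) ∧
    ∀ i : Fin m, (γ (j i.castSucc) - γ (j (Fin.last m))) * (Real.log T / (2 * Real.pi)) ∈ Icc (α i) (β i)}

/-- `sin(πx)/(πx)`, `1` at `0` -/
def K (x : ℝ) : ℝ := if x = 0 then 1 else Real.sin (Real.pi * x) / (Real.pi * x)

/-- the matrix `A(u_1, ..., u_m, 0)` of the problem -/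
def matA {m : ℕ} (u : Fin m → ℝ) : Matrix (Fin (m + 1)) (Fin (m + 1)) ℝ :=
  Matrix.of fun i j => K ((Fin.snoc u 0 : Fin (m + 1) → ℝ) i - (Fin.snoc u 0 : Fin (m + 1) → ℝ) j)

theorem result : ∀ m : ℕ, 1 ≤ m → ∃ C T₀ : ℝ, ∀ T : ℝ, T₀ ≤ T → ∀ A : ℝ, 1 ≤ A → A ≤ Real.log T / 10 →
    ∀ α β : Fin m → ℝ, (∀ i, -A ≤ α i ∧ α i ≤ β i ∧ β i ≤ A) →
    |(Nk T α β : ℝ) - (∫ u in Icc α β, (matA u).det) * (T / (2 * Real.pi) * Real.log T)| ≤
        C * A ^ (m - 1) * (T / (2 * Real.pi) * Real.log T) ∧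
      |(Nk T α β : ℝ) - (∏ i, (β i - α i)) * (T / (2 * Real.pi) * Real.log T)| ≤
        C * A ^ (m - 1) * (T / (2 * Real.pi) * Real.log T) := by
  intro m hm
  obtain ⟨C, T0, hC, hT0, H⟩ := Pool.Agent.U398.MV.th5 m hm
  refine ⟨2 * Real.pi * C + ((m + 1).factorial : ℝ) * ((m + 1) ^ 2 * (2 * Real.pi * 2 ^ (m - 1))), T0,
    fun T hT A hA1 hA2 α β h => ?_⟩
  have h1 := H T hT A hA1 hA2 α β h
  have h2 := Pool.Agent.U398.MV.det_int hm α β A h
  have hlog : 0 < Real.log T := by linarith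
  have hT : 0 < T := by linarith
  have hA0 : 0 < A := by linarith
  have hpi := Real.pi_pos
  set X : ℝ := T / (2 * Real.pi) * Real.log T with hX
  have hXpos : 0 < X := by positivity
  have hTX : T * Real.log T = 2 * Real.pi * X := by rw [hX]; field_simp
  have hN : (Pool.Agent.U398.MV.NK SG.ord T α β : ℝ) = (Nk T α β : ℝ) := rfl
  have hI : (∫ u in Icc α β, (Pool.Agent.U398.MV.sM u).det) = ∫ u in Icc α β, (matA u).det := rfl
  rw [hN, hTX] at h1
  rw [hI] at h2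
  have h1' : |(Nk T α β : ℝ) - (∏ i, (β i - α i)) * X| ≤ 2 * Real.pi * C * A ^ (m - 1) * X :=
    h1.trans (le_of_eq (by ring))
  have e2 : ((m + 1).factorial : ℝ) * ((m + 1) ^ 2 * (2 * Real.pi * (2 * A) ^ (m - 1))) =
      ((m + 1).factorial : ℝ) * ((m + 1) ^ 2 * (2 * Real.pi * 2 ^ (m - 1))) * A ^ (m - 1) := by
    rw [mul_pow]; ring
  rw [e2] at h2
  set D : ℝ := ((m + 1).factorial : ℝ) * ((m + 1) ^ 2 * (2 * Real.pi * 2 ^ (m - 1))) with hD
  have hD0 : 0 ≤ D := by positivity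
  have hAp : 0 ≤ A ^ (m - 1) := by positivity
  set P := ∏ i, (β i - α i) with hP
  set J := ∫ u in Icc α β, (matA u).det with hJ
  constructor
  · have e3 : (Nk T α β : ℝ) - J * X = ((Nk T α β : ℝ) - P * X) - (J - P) * X := by ring
    rw [e3]
    refine (abs_sub _ _).trans ?_
    rw [abs_mul, abs_of_pos hXpos]
    nlinarith [mul_le_mul_of_nonneg_right h2 hXpos.le]
  · refine h1'.trans ?_
    have : 0 ≤ D * A ^ (m - 1) * X := by positivity
    nlinarith

end

end Pool.Agent.Results.MP_67227b_nt.KLevelLargeBoxes
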