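import Pool.Agent.U112.DS.Tuples
import Pool.Agent.H370R2.DirGood
import Pool.Agent.H370R2.Expl1

/-!
# k-tuples of zeros at k of m shifts in EVERY short interval

No hypothesis is assumed.  For `0 < h ≤ 1` put `c h = R0 / h + h (cMT⁻¹ - R0)`, with the
Montgomery-Taylor constant `cMT⁻¹ = 1.3274…` and `R0 = 1.0061…`, and `P h = (2 - c h) / h`; it is
positive for `h ≥ 0.5525`, larger than `1 / 2` for `h ≥ 0.711`, larger than `2 / 3` for `h ≥ 0.935`.

All zeros are simple zeros on the critical line of primitive Dirichlet L-functions (modulus `1`: the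
Riemann zeta function), and the shifts go up to `T ^ (1 + d)`.

(1) Let `k ≥ 3`.  For any `m` L-functions, any `m` shifts `b` and any interval length `H`,
`T ^ h ≤ H ≤ T`, the numbers of the `k`-tuples of zeros at `k` of the `m` shifts (for every choice of
`k` of the indices: `x i` is in `(T + b i, T + b i + H]` and the `x i - b i` are within less than `ρ`
mean spacings of each other) are together at least
`(binom(q, k) + (m P h - q) binom(q, k - 1) - ε) h ^ k ρ ^ (k - 1) (H / 2π) log T`, for every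
`q = 0, 1, …` (the best choice `q = ⌊m P h⌋` is the linear interpolation of the binomial coefficient
`s ↦ binom(s, k)` at `s = m P h`) and all `ρ ≥ L`.
(2) In particular for zeta: whenever `m P h > k - 1`, for every distance `D ≥ 0` there are `k` of the
points `0, D, 2 D, …, (m - 1) D` at which a positive proportion of all possible positions in every
interval carries a `k`-tuple of zeros.

So every `k` and every `h ≥ 0.5525` are allowed, with large `m`.  The library has `k`-tuples with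
prescribed distances in every interval only for `(r + 1) P h > r` with the number `r` of the different
distances: for all triples this is `h ≥ 0.935`.

Idea of the proof.  Cut the intervals into cells of `g` mean spacings.  The library theorem
`Y763.PS.avg_every` bounds the averages of the counts of the simple critical zeros in the cells,
truncated at `(1 + ε) h g`, from below, in all shifted intervals.  In units of the truncation these
are `m` functions with values in `[0, 1]` and averages at least `P h - ε`, and the `k`-th elementary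
symmetric function of `m` numbers in `[0, 1]` is at least its linear interpolation between the
integer values of their sum.
-/

open Filter Topology Complex MeasureTheory

namespace Pool.Agent.Results.MP_67227b_nt.KLevelShiftsEveryShort

open Pool.Agent.TH342.CV

/-- `1/2 + i x` is a simple zero of `F` -/
def Simple (F : ℂ → ℂ) (x : ℝ) : Prop :=
  F (1 / 2 + x * I) = 0 ∧ analyticOrderNatAt F (1 / 2 + x * I) = 1

/-- the mean spacing of the zeros of zeta near `T` -/
noncomputable def gap (T : ℝ) : ℝ := 2 * Real.pi / Real.log T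

/-- the tuples `x i`, `i ∈ S`, of ordinates of simple zeros of `F i` on the critical line in
`(T + b i, T + b i + H]`, with the `x i - b i` within less than `ρ` of each other (`x i = 0` outside
`S`) -/
def tuples {m : ℕ} (S : Finset (Fin m)) (F : Fin m → ℂ → ℂ) (T H : ℝ) (b : Fin m → ℝ) (ρ : ℝ) :
    Set (Fin m → ℝ) :=
  {x | (∀ i ∈ S, T + b i < x i ∧ x i ≤ T + b i + H ∧ Simple (F i) (x i)) ∧
    (∀ i ∉ S, x i = 0) ∧ ∀ i ∈ S, ∀ j ∈ S, |(x i - b i) - (x j - b j)| < ρ}

/-- the Montgomery-Taylor constant -/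
noncomputable def cMT : ℝ :=
  Real.sqrt 2 * Real.tan (1 / Real.sqrt 2) / (1 + Real.tan (1 / Real.sqrt 2) / Real.sqrt 2)

/-- the mean square of the Montgomery-Taylor window, `1.0061...` -/
noncomputable def R0 : ℝ :=
  (1 + Real.sin (Real.sqrt 2) / Real.sqrt 2) / (4 * Real.sin (1 / Real.sqrt 2) ^ 2)

/-- the constant for intervals of length `T ^ h`; `c 1 = cMT⁻¹ = 1.3274...` -/
noncomputable def c (h : ℝ) : ℝ := R0 / h + h * (cMT⁻¹ - R0)

/-- the lower bound for the averages of the truncated counts -/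
noncomputable def P (h : ℝ) : ℝ := (2 - c h) / h

/-- modulus `1`: the Riemann zeta function -/
theorem zeta_case (χ : DirichletCharacter ℂ 1) :
    χ.IsPrimitive ∧ DirichletCharacter.LFunction χ = riemannZeta := by
  refine ⟨?_, DirichletCharacter.LFunction_modOne_eq⟩
  rw [DirichletCharacter.level_one' χ rfl]
  exact DirichletCharacter.isPrimitive_one_level_one

lemma c_eq {h : ℝ} : c h = H295Iso.c0 h := by
  have h1 : cMT⁻¹ = H370.cMTinv := H370.cMTinv_eq
  have h2 := H228SI.constS 1 one_pos le_rfl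
  have h4 : Real.sqrt 2 / 2 = 1 / Real.sqrt 2 := by
    rw [div_eq_div_iff (by norm_num) (by positivity), Real.mul_self_sqrt (by norm_num), one_mul]
  have h3 : H295SI.RS (Real.sqrt 2) 0 = R0 := by
    unfold H295SI.RS R0
    have hs : Real.sqrt 2 ^ 2 = 2 := Real.sq_sqrt (by norm_num)
    rw [if_pos (by norm_num), hs, h4]
    simp only [abs_zero, sub_zero, mul_zero, Real.cos_zero, mul_one]
    ring
  have h5 : H295SI.cc 1 = H370.cMTinv := by
    unfold H295SI.cc H370.cMTinv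
    rfl
  rw [mul_one, h5] at h2
  unfold c H295Iso.c0 H295SI.cR
  unfold H295SI.cR at h2
  rw [h3] at h2 ⊢
  rw [h1, ← h2]
  ring

lemma P_eq {h : ℝ} : P h = (2 - H295Iso.c0 h) / h := by
  unfold P
  rw [c_eq]

lemma cMT_num : cMT⁻¹ ≤ 1.327503 := by
  have h1 : cMT⁻¹ = H370.cMTinv := H370.cMTinv_eq
  rw [h1]
  exact H370.Expl.cMTinv_num

lemma R0_num : 1.00611 ≤ R0 ∧ R0 ≤ 1.00614 := by
  obtain ⟨h1, h2⟩ := H370.Expl.exp_num
  rw [abs_le] at h1 h2
  set S : ℝ := Real.sqrt 2 * Real.sin (1 / Real.sqrt 2) with hS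
  set Q : ℝ := Real.cos (1 / Real.sqrt 2) with hQ
  have hs : Real.sqrt 2 ^ 2 = 2 := Real.sq_sqrt (by norm_num)
  have hs0 : Real.sqrt 2 ≠ 0 := by positivity
  have h3 : Real.sin (Real.sqrt 2) / Real.sqrt 2 = S * Q := by
    have e : Real.sqrt 2 = 2 * (1 / Real.sqrt 2) := by
      field_simp
      exact hs
    have e2 : Real.sin (Real.sqrt 2) = 2 * Real.sin (1 / Real.sqrt 2) * Q := by
      conv_lhs => rw [e]
      rw [Real.sin_two_mul]
    rw [e2, hS, div_eq_iff hs0]
    have : Real.sqrt 2 * Real.sin (1 / Real.sqrt 2) * Q * Real.sqrt 2 =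
        Real.sqrt 2 ^ 2 * Real.sin (1 / Real.sqrt 2) * Q := by ring
    rw [this, hs]
  have h4 : 4 * Real.sin (1 / Real.sqrt 2) ^ 2 = 2 * S ^ 2 := by
    rw [hS, mul_pow, hs]; ring
  unfold R0
  rw [h3, h4]
  have hSl : 0.918722 ≤ S := by norm_num at h2 ⊢; linarith [h2.1]
  have hSu : S ≤ 0.918729 := by norm_num at h2 ⊢; linarith [h2.2]
  have hQl : 0.760241 ≤ Q := by norm_num at h1 ⊢; linarith [h1.1]
  have hQu : Q ≤ 0.760246 := by norm_num at h1 ⊢; linarith [h1.2]
  have hS2 : 0 < 2 * S ^ 2 := by positivity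
  constructor
  · rw [le_div_iff₀ hS2]
    nlinarith
  · rw [div_le_iff₀ hS2]
    nlinarith

/-- `P h > 0` -/
lemma P_pos {h : ℝ} (hh : 0.5525 ≤ h) (hh1 : h ≤ 1) : 0 < P h := by
  obtain ⟨h1, h2⟩ := R0_num
  have h3 := cMT_num
  norm_num at h1 h2 h3 hh
  have h0 : 0 < h := by linarith
  have e : P h = (2 * h - R0 - (cMT⁻¹ - R0) * h ^ 2) / h ^ 2 := by
    unfold P c
    field_simp
    ring
  rw [e]
  apply div_pos _ (by positivity)
  have h4 : 0 ≤ h ^ 2 := by positivity
  have h5 : 0 ≤ (h - 221 / 400) * (1 - h) := mul_nonneg (by linarith) (by linarith)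
  nlinarith

/-- `P h > 1 / 2` -/
lemma P_half {h : ℝ} (hh : 0.711 ≤ h) (hh1 : h ≤ 1) : 1 / 2 < P h := by
  obtain ⟨h1, h2⟩ := R0_num
  have h3 := cMT_num
  norm_num at h1 h2 h3 hh
  have h0 : 0 < h := by linarith
  have e : P h - 1 / 2 = (4 * h - 2 * R0 - (1 + 2 * (cMT⁻¹ - R0)) * h ^ 2) / (2 * h ^ 2) := by
    unfold P c
    field_simp
    ring
  have h6 : 0 < P h - 1 / 2 := by
    rw [e]
    apply div_pos _ (by positivity)
    have h4 : 0 ≤ h ^ 2 := by positivity
    have h5 : h ^ 2 ≤ 1 := by nlinarith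
    nlinarith
  linarith

/-- `P h > 2 / 3` -/
lemma P_three {h : ℝ} (hh : 0.935 ≤ h) (hh1 : h ≤ 1) : 2 / 3 < P h := by
  obtain ⟨h1, h2⟩ := R0_num
  have h3 := cMT_num
  norm_num at h1 h2 h3 hh
  have h0 : 0 < h := by linarith
  have e : P h - 2 / 3 = (6 * h - 3 * R0 - (2 + 3 * (cMT⁻¹ - R0)) * h ^ 2) / (3 * h ^ 2) := by
    unfold P c
    field_simp
    ring
  have h6 : 0 < P h - 2 / 3 := by
    rw [e]
    apply div_pos _ (by positivity)
    have h4 : 0 ≤ h ^ 2 := by positivity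
    have h5 : h ^ 2 ≤ 1 := by nlinarith
    nlinarith
  linarith

/-- **Main theorem.** -/
theorem result :
    -- (1) the tuples at `k` of `m` shifts
    (∀ m k q : ℕ, 3 ≤ k → ∀ h ε : ℝ, 0 < h → h ≤ 1 → 0 < ε →
      ∃ L d : ℝ, 0 < L ∧ 0 < d ∧
      ∀ (N : Fin m → ℕ) [∀ i, NeZero (N i)] (χ : ∀ i, DirichletCharacter ℂ (N i)),
        (∀ i, (χ i).IsPrimitive) → ∃ T₀ : ℝ, ∀ T : ℝ, T₀ ≤ T → ∀ H : ℝ, T ^ h ≤ H → H ≤ T →
        ∀ b : Fin m → ℝ, (∀ i, 0 ≤ b i ∧ b i ≤ T ^ (1 + d)) →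
        ∀ ρ : ℝ, L ≤ ρ → ρ * gap T ≤ d * H →
        (q.choose k + (m * P h - q) * q.choose (k - 1) - ε) * h ^ k * ρ ^ (k - 1) *
          (H / (2 * Real.pi) * Real.log T) ≤
          ∑ S ∈ (Finset.univ : Finset (Fin m)).powersetCard k,
            ((tuples S (fun i => DirichletCharacter.LFunction (χ i)) T H b
              (ρ * gap T)).ncard : ℝ)) ∧
    -- (2) zeta: `k` of the multiples
    (∀ (h : ℝ) (m k : ℕ), 3 ≤ k → 0 < h → h ≤ 1 → (k : ℝ) - 1 < m * P h →
      ∃ L κ d T₀ : ℝ, 0 < L ∧ 0 < κ ∧ 0 < d ∧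
      ∀ T : ℝ, T₀ ≤ T → ∀ H : ℝ, T ^ h ≤ H → H ≤ T → ∀ D : ℝ, 0 ≤ D → m * D ≤ T ^ (1 + d) →
        ∃ S : Finset (Fin m), S.card = k ∧ κ * (H * Real.log T) ≤
          ((tuples S (fun _ => riemannZeta) T H (fun i => (i : ℕ) * D) (L * gap T)).ncard : ℝ)) ∧
    -- the numbers
    (∀ h : ℝ, 0.5525 ≤ h → h ≤ 1 → 0 < P h) ∧ (∀ h : ℝ, 0.711 ≤ h → h ≤ 1 → 1 / 2 < P h) ∧
    (∀ h : ℝ, 0.935 ≤ h → h ≤ 1 → 2 / 3 < P h) := by
  have one : ∀ m k q : ℕ, 3 ≤ k → ∀ h ε : ℝ, 0 < h → h ≤ 1 → 0 < ε →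
      ∃ L d : ℝ, 0 < L ∧ 0 < d ∧
      ∀ (N : Fin m → ℕ) [∀ i, NeZero (N i)] (χ : ∀ i, DirichletCharacter ℂ (N i)),
        (∀ i, (χ i).IsPrimitive) → ∃ T₀ : ℝ, ∀ T : ℝ, T₀ ≤ T → ∀ H : ℝ, T ^ h ≤ H → H ≤ T →
        ∀ b : Fin m → ℝ, (∀ i, 0 ≤ b i ∧ b i ≤ T ^ (1 + d)) →
        ∀ ρ : ℝ, L ≤ ρ → ρ * gap T ≤ d * H →
        (q.choose k + (m * P h - q) * q.choose (k - 1) - ε) * h ^ k * ρ ^ (k - 1) *
          (H / (2 * Real.pi) * Real.log T) ≤
          ∑ S ∈ (Finset.univ : Finset (Fin m)).powersetCard k,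
            ((tuples S (fun i => DirichletCharacter.LFunction (χ i)) T H b
              (ρ * gap T)).ncard : ℝ) := by
    intro m k q hk h ε hh hh1 hε
    rw [P_eq]
    obtain ⟨r, rfl⟩ : ∃ r, k = r + 1 := ⟨k - 1, by omega⟩
    obtain ⟨L, d, hL, hd, H0⟩ := Pool.Agent.U112.DS.tuples_m m r q hh hh1 hε
    refine ⟨L, d, hL, hd, fun N _ χ hχ => ?_⟩
    obtain ⟨T0, hT0, H1⟩ := H0 (fun i => DirichletCharacter.LFunction (χ i))
      (fun i => H370.good_dirichlet (χ i) (hχ i))
    exact ⟨T0, fun T hT H hH1 hH2 b hb ρ hρ1 hρ2 => H1 T hT H hH1 hH2 b hb ρ hρ1 hρ2⟩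
  refine ⟨one, ?_, fun h h1 h2 => P_pos h1 h2, fun h h1 h2 => P_half h1 h2,
    fun h h1 h2 => P_three h1 h2⟩
  intro h m k hk hh hh1 hm
  have hpi := Real.pi_pos
  set δ : ℝ := m * P h - (k - 1) with hδ
  have hδ0 : 0 < δ := by rw [hδ]; linarith
  obtain ⟨L, d, hL, hd, H0⟩ := one m k (k - 1) hk h (δ / 2) hh hh1 (by linarith)
  obtain ⟨T1, H1⟩ := H0 (fun _ => 1) (fun _ => 1) (fun _ => (zeta_case 1).1)
  obtain ⟨T2, hT2, hl⟩ := Pool.Agent.U112.DS.large (h := h) (d := d) (g := L) (e := d) hd hh hd hL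
  set Q : ℝ := (((Finset.univ : Finset (Fin m)).powersetCard k).card : ℝ) + 1 with hQ
  have hQ0 : 0 < Q := by positivity
  refine ⟨L, δ / 2 * h ^ k * L ^ (k - 1) / (2 * Real.pi) / Q, d, max T1 T2, hL, by positivity, hd,
    fun T hT H hH1 hH2 D hD0 hD => ?_⟩
  have hT10 : 10 ≤ T := hT2.trans ((le_max_right _ _).trans hT)
  obtain ⟨hlog, -, hw⟩ := hl T ((le_max_right _ _).trans hT)
  have hlog0 : 0 < Real.log T := by linarith
  have hH0 : 0 < H := (Real.rpow_pos_of_pos (by linarith) h).trans_le hH1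
  have key := H1 T ((le_max_left _ _).trans hT) H hH1 hH2 (fun i => (i : ℕ) * D) (fun i => by
    have hi : ((i : ℕ) : ℝ) ≤ m := by exact_mod_cast i.2.le
    refine ⟨by positivity, (mul_le_mul_of_nonneg_right hi hD0).trans hD⟩) L le_rfl
    (hw.trans (mul_le_mul_of_nonneg_left hH1 hd.le))
  simp only [DirichletCharacter.LFunction_modOne_eq] at key
  by_contra hcon
  push Not at hcon
  set κ : ℝ := δ / 2 * h ^ k * L ^ (k - 1) / (2 * Real.pi) / Q with hκ
  have h1 : ∀ S ∈ (Finset.univ : Finset (Fin m)).powersetCard k,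
      ((tuples S (fun _ => riemannZeta) T H (fun i => (i : ℕ) * D) (L * gap T)).ncard : ℝ) ≤
        κ * (H * Real.log T) := by
    intro S hS
    rw [Finset.mem_powersetCard] at hS
    exact (hcon S hS.2).le
  have h3 := key.trans (Finset.sum_le_sum h1)
  rw [Finset.sum_const, nsmul_eq_mul] at h3
  have h4 : (((Finset.univ : Finset (Fin m)).powersetCard k).card : ℝ) *
      (κ * (H * Real.log T)) = δ / 2 * h ^ k * L ^ (k - 1) * (H / (2 * Real.pi) * Real.log T) -
        κ * (H * Real.log T) := by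
    have h5 : (((Finset.univ : Finset (Fin m)).powersetCard k).card : ℝ) = Q - 1 := by
      rw [hQ]; ring
    rw [h5, hκ]; field_simp
  rw [h4] at h3
  have h5 : (((k - 1).choose k : ℕ) : ℝ) + (m * P h - ((k - 1 : ℕ) : ℝ)) *
      (((k - 1).choose (k - 1) : ℕ) : ℝ) - δ / 2 = δ / 2 := by
    rw [Nat.choose_eq_zero_of_lt (by omega), Nat.choose_self, Nat.cast_sub (by omega), hδ]
    push_cast
    ring
  rw [h5] at h3
  have h6 : 0 < κ * (H * Real.log T) := by positivity
  linarith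

end Pool.Agent.Results.MP_67227b_nt.KLevelShiftsEveryShort
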