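import Pool.Agent.U196.CL.Mk5
import Pool.Agent.U196.UV.Gap

set_option autoImplicit false

/-!
# The moments of linear statistics of the zeta zeros in the sharp range, relative to every Dirichlet polynomial

No hypothesis is assumed (zeros off the critical line are counted as well). Let `φ` be even and Lipschitz with support in `[-σ, σ]`,
`σ ≤ 1`, let `f(z) = ∫ φ(v) e^(ivz) dv`, `L = log T`, and consider the linear statistic
`W(t) = ∑ f(L (z - t)) e^(-(z - t)²/2)`, the sum over the nontrivial zeros `1/2 + iz` of the zeta function with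
`T + 1 < Re z ≤ 2T - 1`, with multiplicity.

If `K σ < 2` then the `K`-th moment of `W(t) - φ(0)` is the `K`-th moment of the normal law of variance `∫ |v| φ(v)² dv`, relative to
the weight `|B(t)|²` of EVERY Dirichlet polynomial `B(t) = ∑ b_n n^(-1/2-it)` of length `N ≤ T^θ`, uniformly in the coefficients.

For `B = 1` this is the theorem of Rudnick and Sarnak on the `K`-level correlations of the zeros for the test functions
`φ ⊗ ... ⊗ φ` (support `∑ |ξ_j| < 2`), in the form of mock-Gaussian moments (Hughes and Rudnick). The range `K σ < 2` is the sharp one: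
it is the full range of the Rudnick-Sarnak theorem. The weights `|B|²` may concentrate on very small sets of `t`, on which zeta behaves
atypically (resonators, mollifiers); the predicted correlations persist.

Idea of the proof (files `Pool.Agent.U196.CL`: `Efq, Bil, Opb, Mk1, ..., Mk5`, on top of the library project `Q97.UM`).
`W = φ(0) - 2 Re P + O(1/L)` with a sum `P` over the prime powers up to about `T^σ`. The scalar products of `P^j B` and `P^(K-j) B` in
`L²` and in `ℓ²` agree although one of these Dirichlet polynomials may be longer than `T`: the error is the geometric mean of the two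
lengths, which is `T^(K σ / 2 + θ)` for every `j`. In `ℓ²` the primes `≤ N` and the prime powers are negligible by an operator bound
(`∑_{d | n} Λ(d) = log n`), and the remaining products `P^j B` over the primes `> N` are orthogonal with explicit norms.
-/

namespace Pool.Agent.Results.MP_67227b_nt.MockGaussianEveryPolynomial

open Filter Topology MeasureTheory Complex

noncomputable section

/-- the Dirichlet polynomial with the coefficients `b_1, ..., b_N` on the critical line -/
def B (N : ℕ) (b : ℕ → ℂ) (t : ℝ) : ℂ := ∑ n ∈ Finset.Icc 1 N, b n * (n : ℂ) ^ (-(1 / 2 + t * I))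

/-- `∑ |b_n|² / n`, the mean square of `B` -/
def meanSq (N : ℕ) (b : ℕ → ℂ) : ℝ := ∑ n ∈ Finset.Icc 1 N, ‖b n‖ ^ 2 / n

/-- `f(z) = ∫ φ(v) e^(ivz) dv` -/
def f (φ : ℝ → ℝ) (z : ℂ) : ℂ := ∫ v : ℝ, (φ v : ℂ) * cexp (I * (v * z))

/-- the nontrivial zeros of `ζ` with ordinate in `(T + 1, 2T - 1]` -/
def zeros (T : ℝ) : Set ℂ := {s | riemannZeta s = 0 ∧ 0 < s.re ∧ s.re < 1 ∧ T + 1 < s.im ∧ s.im ≤ 2 * T - 1}

/-- `z` for `s = 1/2 + iz` -/
def zc (s : ℂ) : ℂ := -I * (s - 1 / 2)

/-- the linear statistic: the real part of the sum of `f(log T (z - t)) e^(-(z - t)²/2)` over the zeros `1/2 + iz` in `zeros T`, with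
multiplicity -/
def stat (φ : ℝ → ℝ) (T t : ℝ) : ℝ := (∑ᶠ s ∈ zeros T, (analyticOrderNatAt riemannZeta s : ℂ) *
  (f φ (Real.log T * (zc s - t)) * cexp (-(zc s - t) ^ 2 / 2))).re

/-- the `K`-th moment of the normal law with mean `0` and variance `V` -/
def gaussMoment (K : ℕ) (V : ℝ) : ℝ := if Even K then (Nat.doubleFactorial (K - 1) : ℝ) * V ^ (K / 2) else 0

lemma gauss_eq (K : ℕ) (V : ℝ) : gaussMoment K V = Pool.Agent.U196.CL.GM K (V / 2) := by
  unfold gaussMoment Pool.Agent.U196.CL.GM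
  by_cases h : Even K
  · rw [if_pos h, if_pos h]
    obtain ⟨r, hr⟩ := h
    have e1 : K / 2 = r := by omega
    rw [e1]
    have h1 : (K.factorial : ℝ) = (Nat.doubleFactorial (K - 1)) * (2 ^ r * r.factorial) := by
      rcases Nat.eq_zero_or_pos r with h0 | h0
      · subst h0
        subst hr
        simp
      · obtain ⟨n, hn⟩ : ∃ n, K = n + 1 := ⟨K - 1, by omega⟩
        have h2 := Nat.factorial_eq_mul_doubleFactorial n
        have h3 : Nat.doubleFactorial (n + 1) = 2 ^ r * r.factorial := by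
          rw [← Nat.doubleFactorial_two_mul]
          congr 1
          omega
        have h4 : K - 1 = n := by omega
        rw [h4, hn, h2, h3]
        push_cast
        ring
    have h5 : (r.factorial : ℝ) ≠ 0 := by exact_mod_cast Nat.factorial_ne_zero _
    rw [h1, div_pow]
    field_simp
  · rw [if_neg h, if_neg h]

lemma stat_eq {φ : ℝ → ℝ} {T : ℝ} (hT : 1 ≤ T) (t : ℝ) : stat φ T t = (Pool.Agent.U196.CL.LS φ T t).re := by
  have h : zeros T = ((Pool.Agent.Q97.UM.ZT T : Finset ℂ) : Set ℂ) := by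
    ext s
    rw [Finset.mem_coe, Pool.Agent.U196.UV.mem_ZT hT]
    rfl
  unfold stat Pool.Agent.U196.CL.LS
  rw [h, finsum_mem_coe_finset]
  rfl

/-- **The moments of linear statistics in the Rudnick-Sarnak range, relative to every Dirichlet polynomial.** -/
theorem result (K : ℕ) (σ : ℝ) (φ : ℝ → ℝ) (h0 : 0 < σ) (h1 : σ ≤ 1) (h2 : K * σ < 2)
    (hlip : ∃ D : ℝ, ∀ x y : ℝ, |φ x - φ y| ≤ D * |x - y|) (heven : ∀ v, φ (-v) = φ v) (hsupp : ∀ v, σ ≤ |v| → φ v = 0)
    (ε : ℝ) (hε : 0 < ε) : ∃ θ T₀ : ℝ, 0 < θ ∧ ∀ T : ℝ, T₀ ≤ T → ∀ N : ℕ, (N : ℝ) ≤ T ^ θ → ∀ b : ℕ → ℂ,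
      |(∫ t in (T + 2 * Real.log T)..(2 * T - 2 * Real.log T), (stat φ T t - φ 0) ^ K * ‖B N b t‖ ^ 2) -
        gaussMoment K (∫ v, |v| * φ v ^ 2) * (T * meanSq N b)| ≤ ε * (T * meanSq N b) := by
  obtain ⟨D, hD⟩ := hlip
  have hD0 := Pool.Agent.Q247.UM.q_D0 hD
  have hK0 : (0 : ℝ) ≤ K := Nat.cast_nonneg K
  have hP : Pool.Agent.U196.CL.Par φ σ D (σ * D + 1) ((2 - K * σ) / (K + 3)) K := by
    refine ⟨h0, h1, hD, heven, hsupp, fun v => ?_, by positivity, div_pos (by linarith) (by positivity), ?_, ?_⟩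
    · have h3 := Pool.Agent.Q247.UM.q_bd (δ := σ / 2) (by linarith) hD (fun v hv => hsupp v (by linarith)) v
      linarith
    · rw [div_le_one (by positivity)]
      nlinarith
    · have : (K : ℝ) * (σ + (2 - K * σ) / (K + 3)) + 3 * ((2 - K * σ) / (K + 3)) = 2 := by
        field_simp
        ring
      rw [this]
  obtain ⟨θ, hθ, hT⟩ := Pool.Agent.U196.CL.lin_moments hP hε
  obtain ⟨T₀, hT₀⟩ := Filter.eventually_atTop.1 (hT.and (eventually_ge_atTop (1 : ℝ)))
  refine ⟨θ, T₀, hθ, fun T hTT N hN b => ?_⟩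
  obtain ⟨h3, hT1⟩ := hT₀ T hTT
  have h4 := h3 N hN b
  simp only [stat_eq hT1]
  rw [gauss_eq]
  have e : T * Pool.Agent.U196.CL.GM K ((∫ v, |v| * φ v ^ 2) / 2) * Pool.Agent.Q97.UM.N2 N b =
      Pool.Agent.U196.CL.GM K ((∫ v, |v| * φ v ^ 2) / 2) * (T * meanSq N b) := by
    unfold meanSq Pool.Agent.Q97.UM.N2
    ring
  rw [e] at h4
  exact h4

end

end Pool.Agent.Results.MP_67227b_nt.MockGaussianEveryPolynomial
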