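import Pool.Agent.U403.Thick.Freeze
import Pool.Agent.H177R3.LatD

/-!
# The numbers of thick windows of the zeros of the zeta function, and the freezing of their partition function

The Riemann hypothesis is assumed, as in the problem. For `T < t ≤ 2 T` and `1 ≤ b ≤ r` let `D_b` be the number of the
zeros with ordinate in the window `(t, t + 2 π b / log T]`, with multiplicity, minus its mean value `b`. If `Q1` holds
for all `k`, then for fixed `r` the vector `(D_1, …, D_r)` has the limit law of the sine process, a field with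
logarithmic correlations, for which the numbers of the thick points and the partition function are known. Here these
consequences are proved without `Q1`, in the limit `T → ∞` and then `r → ∞`, for almost all `t`:

* for all `0 ≤ α < 1 / π` at once the number of the `b ≤ r` with `D_b ≥ α log r` is `r ^ (1 - π² α² + o(1))`, and so is
  the number of the `b` with `D_b ≤ - α log r`; for all `b ≤ r` we have `|D_b| ≤ (1 / π + o(1)) log r`;
* the partition function `∑_{b ≤ r} exp (l D_b)` is `r ^ (1 + l² / (4 π²) + o(1))` for `|l| ≤ 2 π` and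
  `r ^ (|l| / π + o(1))` for `|l| ≥ 2 π` (freezing at `|l| = 2 π`).

Proof. Comparison of `D_b` with sums over the primes between `T ^ (1 / r)` and `T ^ (r ^ (- 1 / K))`, for all `b` at once,
with errors `ε log r`; first moments for the upper bound; for the lower bound the sum is divided into `K - 1` blocks of
primes, a multiscale second moment argument (truncated at every scale) with tilted characteristic functions of
the blocks gives positive proportion of the expected number of thick windows for almost all `t`.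
-/

set_option autoImplicit false

open Filter MeasureTheory

namespace Pool.Agent.Results.MP_67227b_nt.ThickWindows

/-- multiplicity of `s` as a zero of the Riemann zeta function (order of vanishing at `s`) -/
noncomputable def zmult (s : ℂ) : ℕ := analyticOrderNatAt riemannZeta s

/-- the number of nontrivial zeros of `ζ` with ordinate in `(0, t]`, with multiplicity -/
noncomputable def NZ (t : ℝ) : ℕ :=
  ∑ᶠ s ∈ {s : ℂ | riemannZeta s = 0 ∧ 0 < s.re ∧ s.re < 1 ∧ 0 < s.im ∧ s.im ≤ t}, zmult s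

/-- the number of the zeros with ordinate in `(t, t + 2 π b / log T]` minus `b` -/
noncomputable def dev (T : ℝ) (b : ℕ) (t : ℝ) : ℝ :=
  (NZ (t + 2 * Real.pi * (b : ℝ) / Real.log T) : ℝ) - NZ t - b

/-- the number of the `b ≤ r` with `σ D_b ≥ α log r` -/
noncomputable def thick (σ α : ℝ) (r : ℕ) (T t : ℝ) : ℕ :=
  {b : ℕ | 1 ≤ b ∧ b ≤ r ∧ α * Real.log r ≤ σ * dev T b t}.ncard

/-- the partition function -/
noncomputable def partition (l : ℝ) (r : ℕ) (T t : ℝ) : ℝ := ∑ b ∈ Finset.Icc 1 r, Real.exp (l * dev T b t)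

/-- the free energy -/
noncomputable def freeEnergy (l : ℝ) : ℝ :=
  if |l| ≤ 2 * Real.pi then 1 + l ^ 2 / (4 * Real.pi ^ 2) else |l| / Real.pi

/-- the typical behaviour, up to `ε` -/
def Typical (ε : ℝ) (r : ℕ) (T t : ℝ) : Prop :=
  (∀ σ : ℝ, σ = 1 ∨ σ = -1 → ∀ α : ℝ, 0 ≤ α → α ≤ 1 / Real.pi - ε →
    (r : ℝ) ^ (1 - Real.pi ^ 2 * α ^ 2 - ε) ≤ thick σ α r T t ∧
    (thick σ α r T t : ℝ) ≤ (r : ℝ) ^ (1 - Real.pi ^ 2 * α ^ 2 + ε)) ∧
  (∀ b : ℕ, 1 ≤ b → b ≤ r → |dev T b t| ≤ (1 / Real.pi + ε) * Real.log r) ∧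
  (∀ l : ℝ, |l| ≤ 1 / ε →
    (r : ℝ) ^ (freeEnergy l - ε) ≤ partition l r T t ∧ partition l r T t ≤ (r : ℝ) ^ (freeEnergy l + ε))

theorem dev_eq (T : ℝ) (b : ℕ) (t : ℝ) : Pool.Agent.R320.JL.YY T b t = dev T b t := rfl

theorem cnt_eq (σ α : ℝ) (r : ℕ) (T t : ℝ) : Pool.Agent.U403.Thick.cnt σ α r T t = thick σ α r T t := by
  classical
  unfold Pool.Agent.U403.Thick.cnt thick
  rw [← Set.ncard_coe_finset]
  congr 1
  ext b
  rw [Finset.mem_coe, Finset.mem_filter, Finset.mem_Icc, Set.mem_ofPred_eq]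
  simp only [dev_eq]
  tauto

theorem typical_of {ε : ℝ} {r : ℕ} {T t : ℝ} (hr : 1 ≤ r) (h : Pool.Agent.U403.Thick.Good2 ε r T t) :
    Typical ε r T t := by
  have hr0 : (0 : ℝ) < r := by exact_mod_cast hr
  obtain ⟨⟨h1, h2⟩, h3⟩ := h
  refine ⟨fun σ hσ α h0 h4 => ?_, fun b hb1 hb2 => ?_, fun l hl => ?_⟩
  · have h5 := h1 σ hσ α h0 h4
    rw [cnt_eq] at h5
    rw [Real.rpow_def_of_pos hr0, Real.rpow_def_of_pos hr0, mul_comm (Real.log r), mul_comm (Real.log r)]
    exact h5
  · have h5 := h2 b hb1 hb2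
    rw [dev_eq] at h5
    exact h5
  · have h5 := h3 l hl
    rw [Real.rpow_def_of_pos hr0, Real.rpow_def_of_pos hr0, mul_comm (Real.log r), mul_comm (Real.log r)]
    exact h5

/-- **Thick windows and freezing.**  On the Riemann hypothesis, for all `ε, η > 0`, all `r ≥ r₀(ε, η)` and all
`T ≥ T₀(ε, η, r)`, the following holds for all `t ∈ (T, 2 T]` outside of a set of measure at most `η T`, where `D_b` is
the number of the zeros with ordinate in `(t, t + 2 π b / log T]` minus `b`: for every `0 ≤ α ≤ 1 / π - ε` the number of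
the `b ≤ r` with `D_b ≥ α log r` and the number of those with `D_b ≤ - α log r` are between `r ^ (1 - π² α² - ε)` and
`r ^ (1 - π² α² + ε)`; `|D_b| ≤ (1 / π + ε) log r` for all `b ≤ r`; and for every real `l` with `|l| ≤ 1 / ε` the
sum of `exp (l D_b)` over `b ≤ r` is between `r ^ (F(l) - ε)` and `r ^ (F(l) + ε)`, where `F(l)` is
`1 + l² / (4 π²)` for `|l| ≤ 2 π` and `|l| / π` for `|l| > 2 π`. -/
theorem result (RH : RiemannHypothesis) (ε η : ℝ) (hε : 0 < ε) (hη : 0 < η) :
    ∃ r₀ : ℕ, ∀ r : ℕ, r₀ ≤ r → ∃ T₀ : ℝ, ∀ T : ℝ, T₀ ≤ T →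
      volume.real {t : ℝ | T < t ∧ t ≤ 2 * T ∧ ¬ Typical ε r T t} ≤ η * T := by
  obtain ⟨r₀, h⟩ := eventually_atTop.1 (Pool.Agent.U403.Thick.freezing (H177.Lat.rhs_of RH) ε hε η hη)
  refine ⟨max r₀ 1, fun r hr => ?_⟩
  obtain ⟨T₀, hT₀⟩ := eventually_atTop.1 (h r ((le_max_left _ _).trans hr))
  refine ⟨max T₀ 1, fun T hT => ?_⟩
  have hr1 : 1 ≤ r := (le_max_right _ _).trans hr
  have hT1 : 0 < T := lt_of_lt_of_le one_pos ((le_max_right _ _).trans hT)
  have h1 := hT₀ T ((le_max_left _ _).trans hT)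
  unfold Pool.Agent.U403.Max.PT at h1
  rw [measureReal_ennreal_smul_apply, Measure.real, Measure.restrict_apply' measurableSet_Ioc, ENNReal.toReal_inv,
    ENNReal.toReal_ofReal hT1.le, inv_mul_le_iff₀ hT1] at h1
  rw [mul_comm η T]
  refine le_trans ?_ h1
  rw [Measure.real]
  apply ENNReal.toReal_mono
  · exact ne_top_of_le_ne_top (by rw [Real.volume_Ioc]; exact ENNReal.ofReal_ne_top)
      (measure_mono (Set.inter_subset_right : _ ⊆ Set.Ioc T (2 * T)))
  · apply measure_mono
    rintro t ⟨ht1, ht2, ht3⟩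
    exact ⟨fun hG => ht3 (typical_of hr1 hG), ht1, ht2⟩

end Pool.Agent.Results.MP_67227b_nt.ThickWindows
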